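import Pool.Agent.Helper34.SD.Defs

/-!
# Post's tag system (MP_41f897_lc), module DY: the process in passes
-/

set_option autoImplicit false

namespace Pool.Agent.Helper45.SD

open Pool.Agent.Helper34.SD Pool.Agent.Helper34.PT

/-- one block, no condition on the length of the rest -/
private theorem block' (c : Bool) (s : Fin 3) (Z : List Bool) :
    run (out c s).length ((bin [c] ++ Z).drop s) = none ∨
    run (out c s).length ((bin [c] ++ Z).drop s) =
      some ((Z ++ bin (out c s)).drop (nxt c s)) := by
  match Z with
  | [] => cases c <;> fin_cases s <;> simp [out, nxt, bin, run, step]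
  | [z] => cases c <;> fin_cases s <;> simp [out, nxt, bin, run, step]
  | z1 :: z2 :: Z => exact Or.inr (run_block c s (z1 :: z2 :: Z) (by simp))

private theorem bind_step {m n : ℕ} {w w' : List Bool} {r : Option (List Bool)}
    (h : run m w = none ∨ run m w = some w') (h' : run n w' = none ∨ run n w' = r) :
    run (m + n) w = none ∨ run (m + n) w = r := by
  rw [run_add]
  rcases h with h | h
  · left
    rw [h]
    rfl
  · rw [h]
    exact h'

private theorem word' (W : List Bool) : ∀ (s : Fin 3) (Z : List Bool),
    run (sec W s).length ((bin W ++ Z).drop s) = none ∨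
    run (sec W s).length ((bin W ++ Z).drop s) =
      some ((Z ++ bin (sec W s)).drop (ext W s)) := by
  induction W with
  | nil =>
    intro s Z
    right
    simp [sec, ext, bin, run]
  | cons c W ih =>
    intro s Z
    simp only [sec, ext, List.length_append]
    have hb : bin (c :: W) ++ Z = bin [c] ++ (bin W ++ Z) := by
      have : c :: W = [c] ++ W := rfl
      rw [this, bin_append, List.append_assoc]
    rw [hb, bin_append, ← List.append_assoc Z]
    refine bind_step (block' c s (bin W ++ Z)) ?_
    rw [List.append_assoc]
    exact ih (nxt c s) (Z ++ bin (out c s))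

private theorem raw' (w : List Bool) : ∀ (s : Fin 3) (Z : List Bool),
    run (rsec w s).length ((w ++ Z).drop s) = none ∨
    run (rsec w s).length ((w ++ Z).drop s) =
      some ((Z ++ bin (rsec w s)).drop (rext w s)) := by
  induction w with
  | nil =>
    intro s Z
    right
    simp [rsec, rext, bin, run]
  | cons c w ih =>
    intro s Z
    simp only [rsec, rext, List.cons_append]
    by_cases hs : s = 0
    · subst hs
      rw [if_pos rfl, List.length_append, bin_append, ← List.append_assoc Z]
      have h2 : ((0 : Fin 3) + 2 : Fin 3) = 2 := by decide
      rw [h2]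
      have h3 := ih 2 (Z ++ bin [c])
      refine bind_step (w' := (w ++ (Z ++ bin [c])).drop ((2 : Fin 3) : ℕ)) ?_ h3
      have h4 : w ++ (Z ++ bin [c]) = (w ++ Z) ++ bin [c] := by rw [List.append_assoc]
      rw [h4]
      generalize w ++ Z = Y
      match Y with
      | [] => cases c <;> simp [bin, run, step]
      | [z] => cases c <;> simp [bin, run, step]
      | z1 :: z2 :: Y => cases c <;> simp [bin, run, step]
    · rw [if_neg hs, List.nil_append]
      have h1 : (c :: (w ++ Z)).drop (s : ℕ) = (w ++ Z).drop ((s + 2 : Fin 3) : ℕ) := by
        revert hs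
        fin_cases s
        · intro hs
          exact absurd rfl hs
        · intro _
          rfl
        · intro _
          rfl
      rw [h1]
      exact ih (s + 2) Z

private theorem pass (w : List Bool) (t : ℕ) : ∃ n : ℕ, run n w = none ∨
    run n w = some ((bin (st w t).1).drop ((st w t).2 : ℕ)) := by
  induction t with
  | zero =>
    refine ⟨(rsec w 0).length, ?_⟩
    have h := raw' w 0 []
    rw [List.append_nil, List.nil_append] at h
    exact h
  | succ t ih =>
    obtain ⟨n, hn⟩ := ih
    refine ⟨n + (sec (st w t).1 (st w t).2).length, ?_⟩
    refine bind_step hn ?_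
    have h := word' (st w t).1 (st w t).2 []
    rw [List.append_nil, List.nil_append] at h
    exact h

private theorem bin_false (W : List Bool) (h : true ∉ W) :
    ∃ N : ℕ, bin W = List.replicate N false := by
  induction W with
  | nil => exact ⟨0, rfl⟩
  | cons c W ih =>
    cases c with
    | true => exact absurd List.mem_cons_self h
    | false =>
      obtain ⟨N, hN⟩ := ih fun h' => h (List.mem_cons_of_mem _ h')
      exact ⟨N + 2, by rw [bin, hN]; rfl⟩

private theorem halts_false (N : ℕ) : Halts (List.replicate N false) := by
  induction N with
  | zero => exact ⟨1, rfl⟩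
  | succ N ih =>
    match N, ih with
    | 0, _ => exact ⟨1, rfl⟩
    | 1, _ => exact ⟨1, rfl⟩
    | N + 2, ⟨t, ht⟩ =>
      refine ⟨t + 1, ?_⟩
      have h1 : step (List.replicate (N + 2 + 1) false) = some (List.replicate (N + 2) false) := by
        have h2 : List.replicate (N + 2) false = List.replicate N false ++ [false, false] := by
          rw [List.replicate_add]
          rfl
        rw [h2]
        simp [List.replicate_succ, step]
      rw [show t + 1 = 1 + t by ring, run_add]
      have h3 : run 1 (List.replicate (N + 2 + 1) false)
          = some (List.replicate (N + 2) false) := by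
        simp only [run]
        rw [h1]
        rfl
      rw [h3]
      exact ht

/-- Module DY. -/
theorem hDY : Stmt_DY := by
  intro w t h
  obtain ⟨n, hn⟩ := pass w t
  rcases hn with hn | hn
  · exact ⟨n, hn⟩
  · obtain ⟨N, hN⟩ := bin_false _ h
    rw [hN, List.drop_replicate] at hn
    obtain ⟨m, hm⟩ := halts_false (N - ((st w t).2 : ℕ))
    refine ⟨n + m, ?_⟩
    rw [run_add, hn]
    exact hm

end Pool.Agent.Helper45.SD
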